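import Pool.Agent.Work.MP_6985d1_gg_helper48.CNT

set_option autoImplicit false

namespace GrigGrowth.helper48

open GrigGrowth Finset

theorem er_length (D : ℕ) (P : List (Option ℕ)) : ∀ e : List Bool, e.length = P.length →
    (er D P e).length = slots P := by
  induction P with
  | nil => intro e h; simp [er, slots]
  | cons i P ih =>
    intro e h
    cases e with
    | nil => simp at h
    | cons x e =>
      simp only [List.length_cons, Nat.add_right_cancel_iff] at h
      cases i with
      | none => simp [er, ih e h, slots]
      | some j => simpa [er, slots] using ih e h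

theorem ns_length (P : List (Option ℕ)) : ∀ e : List Bool, e.length = P.length →
    (ns P e).length + slots P = P.length := by
  induction P with
  | nil => intro e h; simp [ns, slots]
  | cons i P ih =>
    intro e h
    cases e with
    | nil => simp at h
    | cons x e =>
      simp only [List.length_cons, Nat.add_right_cancel_iff] at h
      have := ih e h
      cases i with
      | none => simp [ns, slots] at this ⊢; omega
      | some j => simp [ns, slots] at this ⊢; omega

theorem stmt_CNT2 (hI : Stmt_INJ) : Stmt_CNT2 := by
  classical
  intro D P K hK
  set n := P.length with hn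
  -- the good bit strings
  set good := (vs n).filter fun e => (er D P e).count true ≤ K with hgood
  set bad := (vs n).filter fun e => ¬ (er D P e).count true ≤ K with hbad
  have hcard : good.card + bad.card = 2 ^ n := by
    rw [hgood, hbad, card_filter_add_card_filter_not, card_vs]
  have hb : (K + 1) * bad.card ≤ ∑ e ∈ vs n, (er D P e).count true := by
    calc (K + 1) * bad.card = ∑ e ∈ bad, (K + 1) := by rw [sum_const, smul_eq_mul, mul_comm]
      _ ≤ ∑ e ∈ bad, (er D P e).count true := by
          apply sum_le_sum
          intro e he
          rw [hbad, mem_filter] at he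
          omega
      _ ≤ _ := sum_le_sum_of_subset (filter_subset _ _)
  have hgood2 : 2 ^ n ≤ 2 * good.card := by
    by_contra hcon
    push_neg at hcon
    have h1 : 2 ^ n < 2 * bad.card := by omega
    have h2 : (K + 1) * 2 ^ n < (K + 1) * (2 * bad.card) := by
      exact (Nat.mul_lt_mul_left (by omega)).2 h1
    have h3 : (K + 1) * (2 * bad.card) ≤ K * 2 ^ n := by
      calc (K + 1) * (2 * bad.card) = 2 * ((K + 1) * bad.card) := by ring
        _ ≤ _ := le_trans (Nat.mul_le_mul_left _ hb) hK
    have h4 : K * 2 ^ n ≤ (K + 1) * 2 ^ n := Nat.mul_le_mul_right _ (by omega)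
    omega
  have hns : slots P ≤ n := List.count_le_length
  -- the code
  have hinj : good.card ≤ ((vals P) ×ˢ (((vs (slots P)).filter fun e => e.count true ≤ K) ×ˢ
      vs (n - slots P))).card := by
    apply card_le_card_of_injOn (fun e => (W (U P e), (er D P e, ns P e)))
    · intro e he
      have he' : e ∈ good := he
      rw [hgood, mem_filter, mem_vs] at he'
      have h1 := er_length D P e he'.1
      have h2 := ns_length P e he'.1
      simp only [coe_product, Set.mem_prod, mem_coe, mem_filter, mem_vs]
      refine ⟨?_, ⟨h1, he'.2⟩, by omega⟩
      unfold vals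
      exact mem_image.2 ⟨e, by simpa using he'.1, rfl⟩
    · intro e he e' he' h
      have h1 : e ∈ good := he
      have h2 : e' ∈ good := he'
      rw [hgood, mem_filter, mem_vs] at h1 h2
      simp only [Prod.mk.injEq] at h
      exact hI D P e e' h1.1 h2.1 h.1 h.2.1 h.2.2
  rw [card_product, card_product, card_vs] at hinj
  have h5 : 2 ^ n = 2 ^ slots P * 2 ^ (n - slots P) := by
    rw [← pow_add]; congr 1; omega
  have h6 : 2 ^ slots P * 2 ^ (n - slots P) ≤
      (2 * (vals P).card * ((vs (slots P)).filter fun e => e.count true ≤ K).card) *
        2 ^ (n - slots P) := by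
    rw [← h5]
    calc 2 ^ n ≤ 2 * good.card := hgood2
      _ ≤ 2 * ((vals P).card * (((vs (slots P)).filter fun e => e.count true ≤ K).card *
          2 ^ (n - slots P))) := Nat.mul_le_mul_left _ hinj
      _ = _ := by ring
  exact Nat.le_of_mul_le_mul_right h6 (by positivity)

end GrigGrowth.helper48
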