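import Pool.Agent.Work.MP_6985d1_gg.Interface

set_option autoImplicit false

namespace GrigGrowth.helper48

open GrigGrowth

theorem preceq_trans {f g h : ℕ → ℕ} (h1 : Preceq f g) (h2 : Preceq g h) : Preceq f h := by
  obtain ⟨C, hC, hf⟩ := h1
  obtain ⟨E, hE, hg⟩ := h2
  refine ⟨E * C, Nat.mul_pos hE hC, fun n => le_trans (hf n) (le_trans (hg _) ?_)⟩
  rw [mul_assoc]

/-- The assembly. -/
theorem main (hR : Stmt_ROOT) (h0 : Stmt_FIN0) (hG : Stmt_GENS) :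
    ∃ l : ℝ, (0 < l ∧ l ^ 3 = l ^ 2 + 2 * l + 4) ∧
      (∀ l' : ℝ, 0 < l' → l' ^ 3 = l' ^ 2 + 2 * l' + 4 → l' = l) ∧
      ∀ S : Set Grig, S.Finite → (∀ x ∈ S, x⁻¹ ∈ S) → Subgroup.closure S = ⊤ →
        Preceq (growth S) (ff l) ∧ Preceq (ff l) (growth S) := by
  obtain ⟨l, hl, hu, _, _⟩ := hR
  refine ⟨l, hl, fun l' h1 h2 => hu l' ⟨h1, h2⟩, fun S hS hi hc => ?_⟩
  obtain ⟨g1, g2⟩ := hG S hS hi hc
  obtain ⟨f1, f2⟩ := h0 l hl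
  exact ⟨preceq_trans g1 f1, preceq_trans f2 g2⟩

end GrigGrowth.helper48
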