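import Pool.Agent.Work.MP_6985d1_gg.Interface

set_option autoImplicit false

namespace GrigGrowth.helper48

open GrigGrowth

theorem chi_sig (y s : L) (hy : y ≠ .a) : chi (sig y) (sig s) = chi y s := by
  cases y <;> cases s <;> simp_all [chi, sig]

theorem stmt_PHSEC : Stmt_PHSEC := by
  intro y hy w x v
  have hrep : ∀ (z : Bool) (u : List Bool), (z :: u = List.replicate (z :: u).length true) ↔
      z = true ∧ u = List.replicate u.length true := by
    intro z u
    simp [List.replicate_succ]
  induction w with
  | nil => simp [ph, sec]
  | cons s w ih =>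
    have h1 : (x :: v).length = (W w (x :: v)).length := by simp
    have h2 : v.length = (W (sec w x) v).length := by simp
    rw [sec, ph_append, ← ih]
    simp only [ph]
    rw [add_comm]
    congr 1
    rw [h1, W_apply_cons]
    have key : ∀ (z : Bool) (u : List Bool), ph (sig y) (sl s z) u =
        if z = true ∧ u = List.replicate u.length true then chi y s else 0 := by
      intro z u
      have hs : ∀ t : L, ph (sig y) [t] u =
          if u = List.replicate u.length true then chi (sig y) t else 0 := by
        intro t
        simp only [ph, zero_add]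
        rfl
      have ha : chi (sig y) .a = 0 := by simp [chi]
      have hy1 : ∀ p : Prop, [Decidable p] → (if false = true ∧ p then chi y s else 0) = 0 := by
        intro p _; simp
      have hy2 : ∀ p : Prop, [Decidable p] → (if true = true ∧ p then chi y s else 0) =
        if p then chi y s else 0 := by
        intro p _; simp
      cases z
      · rw [hy1]
        cases s
        · rfl
        · rw [sl, hs, ha, ite_self]
        · rw [sl, hs, ha, ite_self]
        · rfl
      · rw [hy2, ← chi_sig y s hy]
        cases s
        · rw [sl, ph, sig, ha, ite_self]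
        · rw [sl, hs]; rfl
        · rw [sl, hs]; rfl
        · rw [sl, hs]; rfl
    rw [key]
    exact if_congr (hrep _ _) rfl rfl

/-- The number of letters of a word which satisfy a predicate, modulo 2. -/
def nm (p : L → ZMod 2) (w : List L) : ZMod 2 := (w.map p).sum

theorem nm_append (p : L → ZMod 2) (u w : List L) : nm p (u ++ w) = nm p u + nm p w := by
  simp [nm]

def ia : L → ZMod 2 | .a => 1 | _ => 0

theorem fbw_eq (w : List L) (x : Bool) : fbw w x = if nm ia w = 0 then x else !x := by
  induction w with
  | nil => simp [fbw, nm]
  | cons s w ih =>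
    have h2 : ∀ z : ZMod 2, z = 0 ∨ z = 1 := by decide
    have e : nm ia (s :: w) = ia s + nm ia w := by simp [nm]
    rw [fbw, ih, e]
    rcases h2 (nm ia w) with h | h <;> rw [h] <;> cases s <;> cases x <;> simp [fb, ia]
    all_goals decide

theorem even_a {w : List L} (h : W w = 1) : nm ia w = 0 := by
  have h1 := W_apply_cons w true []
  rw [h] at h1
  simp only [Equiv.Perm.coe_one, id_eq, List.cons.injEq] at h1
  by_contra hc
  rw [fbw_eq, if_neg hc] at h1
  simp at h1

theorem sec_one {w : List L} (h : W w = 1) (x : Bool) : W (sec w x) = 1 := by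
  ext1 v
  have h1 := W_apply_cons w x v
  rw [h] at h1
  simp only [Equiv.Perm.coe_one, id_eq, List.cons.injEq] at h1
  simpa using h1.2.symm

theorem nm_sec (p q : L → ZMod 2) (hpq : ∀ s : L, p s = nm q (sl s false) + nm q (sl s true))
    (w : List L) : nm p w = nm q (sec w false) + nm q (sec w true) := by
  induction w with
  | nil => simp [nm, sec]
  | cons s w ih =>
    have e : nm p (s :: w) = p s + nm p w := by simp [nm]
    rw [e, ih, sec, sec, nm_append, nm_append, hpq]
    have : fbw w true = !(fbw w false) := by
      rw [fbw_eq, fbw_eq]; split_ifs <;> rfl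
    rw [this]
    cases fbw w false <;> simp <;> ring

def ibc : L → ZMod 2 | .b => 1 | .c => 1 | _ => 0
def ibd : L → ZMod 2 | .b => 1 | .d => 1 | _ => 0
def icd : L → ZMod 2 | .c => 1 | .d => 1 | _ => 0

theorem even_bc {w : List L} (h : W w = 1) : nm ibc w = 0 := by
  rw [nm_sec ibc ia (by intro s; cases s <;> simp [nm, sl, ibc, ia]), even_a (sec_one h _),
    even_a (sec_one h _), add_zero]

theorem even_bd {w : List L} (h : W w = 1) : nm ibd w = 0 := by
  rw [nm_sec ibd ibc (by intro s; cases s <;> simp [nm, sl, ibd, ibc]), even_bc (sec_one h _),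
    even_bc (sec_one h _), add_zero]

theorem even_cd {w : List L} (h : W w = 1) : nm icd w = 0 := by
  have : ∀ w : List L, nm icd w = nm ibc w + nm ibd w := by
    intro w
    induction w with
    | nil => simp [nm]
    | cons s w ih =>
      have e : ∀ p : L → ZMod 2, nm p (s :: w) = p s + nm p w := by intro p; simp [nm]
      have e2 : icd s = ibc s + ibd s := by cases s <;> decide
      rw [e, e, e, ih, e2]; ring
  rw [this, even_bc h, even_bd h, add_zero]

theorem ph_nil (y : L) (w : List L) : ph y w [] = nm (chi y) w := by
  induction w with
  | nil => simp [ph, nm]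
  | cons s w ih => simp [ph, nm, ih, add_comm]

theorem nm_congr {p q : L → ZMod 2} (h : ∀ s, p s = q s) (w : List L) : nm p w = nm q w := by
  have : p = q := funext h
  rw [this]

theorem ph_one (v : List Bool) : ∀ (y : L), y ≠ .a → ∀ w : List L, W w = 1 → ph y w v = 0 := by
  induction v with
  | nil =>
    intro y hy w h
    rw [ph_nil]
    cases y with
    | a => exact absurd rfl hy
    | b => rw [nm_congr (q := icd) (by intro s; cases s <;> simp [chi, icd]), even_cd h]
    | c => rw [nm_congr (q := ibd) (by intro s; cases s <;> simp [chi, ibd]), even_bd h]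
    | d => rw [nm_congr (q := ibc) (by intro s; cases s <;> simp [chi, ibc]), even_bc h]
  | cons x v ih =>
    intro y hy w h
    rw [stmt_PHSEC y hy]
    exact ih (sig y) (by cases y <;> simp_all [sig]) _ (sec_one h x)

theorem stmt_PHW : Stmt_PHW := by
  intro y hy w w' h v
  have h1 : W (w'.reverse ++ w) = 1 := by rw [W_append, W_reverse, h]; simp
  have h2 : W (w'.reverse ++ w') = 1 := by rw [W_append, W_reverse]; simp
  have e1 := ph_one v y hy _ h1
  have e2 := ph_one v y hy _ h2
  rw [ph_append, h] at e1
  rw [ph_append] at e2
  have := e1.trans e2.symm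
  exact add_left_cancel this

end GrigGrowth.helper48
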