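import Pool.Agent.Work.MP_6985d1_gg_helper48.CNT

set_option autoImplicit false

namespace GrigGrowth.helper48

open GrigGrowth Finset

theorem stmt_JLT : Stmt_JLT := by
  intro M m hm j hj
  simp only [JJ, List.mem_filter, List.mem_range, ftop] at hj
  have h := hj.1
  unfold dep
  omega

theorem geo_aux (M : ℕ) : ∑ l ∈ range M, ((1 : ℝ) / 2) ^ ((l + 1) / 24) ≤ 48 := by
  have hmono : ∀ A B : ℕ, A ≤ B → ∑ l ∈ range A, ((1 : ℝ) / 2) ^ ((l + 1) / 24) ≤
      ∑ l ∈ range B, ((1 : ℝ) / 2) ^ ((l + 1) / 24) := by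
    intro A B h
    exact sum_le_sum_of_subset_of_nonneg (by simpa using h) (by intros; positivity)
  have hk : ∀ k : ℕ, ∑ l ∈ range (24 * k), ((1 : ℝ) / 2) ^ ((l + 1) / 24) ≤ 48 := by
    intro k
    induction k with
    | zero => simp
    | succ k ih =>
      rw [show 24 * (k + 1) = 24 + 24 * k by ring, sum_range_add]
      have h1 : ∑ x ∈ range (24 * k), ((1 : ℝ) / 2) ^ ((24 + x + 1) / 24) =
          (1 / 2) * ∑ x ∈ range (24 * k), ((1 : ℝ) / 2) ^ ((x + 1) / 24) := by
        rw [mul_sum]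
        apply sum_congr rfl
        intro x _
        rw [show (24 + x + 1) / 24 = (x + 1) / 24 + 1 by omega, pow_succ]
        ring
      have h2 : ∑ x ∈ range 24, ((1 : ℝ) / 2) ^ ((x + 1) / 24) ≤ 24 := by
        calc _ ≤ ∑ x ∈ range 24, (1 : ℝ) := by
              apply sum_le_sum
              intro x _
              exact pow_le_one₀ (by norm_num) (by norm_num)
          _ = 24 := by simp
      rw [h1]
      linarith
  exact le_trans (hmono M (24 * M) (by omega)) (hk M)

theorem stmt_GEO : Stmt_GEO := by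
  intro M
  rw [← sum_range_reflect]
  refine le_trans (le_of_eq ?_) (geo_aux M)
  apply sum_congr rfl
  intro m hm
  rw [mem_range] at hm
  congr 2
  omega

theorem stmt_BALLFIN : Stmt_BALLFIN := by
  intro n
  haveI : Finite L := by
    apply Finite.of_injective (fun s : L => match s with | .a => (0 : Fin 4) | .b => 1 | .c => 2 | .d => 3)
    intro s t h
    cases s <;> cases t <;> simp_all
  have h : ball n ⊆ W '' {w : List L | w.length ≤ n} := by
    rintro g ⟨w, hw, rfl⟩
    exact ⟨w, hw, rfl⟩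
  exact (Set.Finite.image _ (List.finite_length_le L n)).subset h

theorem stmt_ROOT : Stmt_ROOT := by
  have hcont : Continuous fun x : ℝ => x ^ 3 - x ^ 2 - 2 * x - 4 := by fun_prop
  have h1 : (2.46 : ℝ) ^ 3 - 2.46 ^ 2 - 2 * 2.46 - 4 < 0 := by norm_num
  have h2 : (0 : ℝ) < (2.47 : ℝ) ^ 3 - 2.47 ^ 2 - 2 * 2.47 - 4 := by norm_num
  obtain ⟨l, hl, hl0⟩ := intermediate_value_Ioo (show (2.46 : ℝ) ≤ 2.47 by norm_num)
    hcont.continuousOn ⟨h1, h2⟩
  simp only at hl0
  refine ⟨l, ⟨by linarith [hl.1], by linarith⟩, ?_, hl.1, hl.2⟩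
  intro l' hl'
  obtain ⟨hp, he⟩ := hl'
  by_contra hne
  have hq : (l' - l) * (l' ^ 2 + l' * l + l ^ 2 - l' - l - 2) = 0 := by nlinarith
  have h3 : l' ^ 2 + l' * l + l ^ 2 - l' - l - 2 = 0 := by
    rcases mul_eq_zero.1 hq with h | h
    · exact absurd (by linarith) hne
    · exact h
  nlinarith [hl.1, hl.2]

end GrigGrowth.helper48
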