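import Pool.Agent.Work.MP_6985d1_gg.Interface

set_option autoImplicit false

namespace GrigGrowth.helper48

open GrigGrowth Finset

theorem vs_succ (n : ℕ) : vs (n + 1) = (vs n).image (List.cons false) ∪ (vs n).image (List.cons true) := by
  ext v
  simp only [mem_vs, mem_union, mem_image]
  constructor
  · intro h
    cases v with
    | nil => simp at h
    | cons x v =>
      simp only [List.length_cons, Nat.add_right_cancel_iff] at h
      cases x
      · exact Or.inl ⟨v, h, rfl⟩
      · exact Or.inr ⟨v, h, rfl⟩
  · rintro (⟨u, hu, rfl⟩ | ⟨u, hu, rfl⟩) <;> simp [hu]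

theorem sum_vs_succ {A : Type*} [AddCommMonoid A] (n : ℕ) (f : List Bool → A) :
    ∑ v ∈ vs (n + 1), f v = ∑ v ∈ vs n, (f (false :: v) + f (true :: v)) := by
  rw [vs_succ, sum_union, sum_image, sum_image, sum_add_distrib]
  · intro a _ b _ h; simpa using h
  · intro a _ b _ h; simpa using h
  · rw [disjoint_left]
    intro a h1 h2
    simp only [mem_image] at h1 h2
    obtain ⟨u, _, rfl⟩ := h1
    obtain ⟨u', _, h⟩ := h2
    simp at h

theorem vs_zero : vs 0 = {[]} := by
  ext v; simp

theorem card_vs (n : ℕ) : (vs n).card = 2 ^ n := by
  induction n with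
  | zero => simp [vs_zero]
  | succ n ih =>
    rw [card_eq_sum_ones, sum_vs_succ, sum_add_distrib, ← card_eq_sum_ones, ih]
    ring

theorem sum_rr (P : List (Option ℕ)) (v : List Bool) :
    ∑ e ∈ vs P.length, rr (U P e) v ≤ 2 ^ P.length * eh (P.map iw) v := by
  induction P generalizing v with
  | nil => simp [vs_zero, U, rr, ph, eh]
  | cons i P ih =>
    rw [List.length_cons, sum_vs_succ, sum_add_distrib]
    have h1 : ∀ e, U (i :: P) (false :: e) = U P e := by intro e; simp [U]
    have h2 : ∀ e, U (i :: P) (true :: e) = U P e ++ iw i := by intro e; simp [U]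
    have h3 : ∀ e, rr (U P e ++ iw i) v ≤ rr (U P e) (W (iw i) v) + rr (iw i) v := by
      intro e
      unfold rr
      rw [ph_append]
      by_cases p1 : ph .b (U P e) (W (iw i) v) = 0
      · by_cases p2 : ph .b (iw i) v = 0
        · simp [p1, p2]
        · simp [p1, p2]
      · by_cases p2 : ph .b (iw i) v = 0
        · simp [p1, p2]
        · rw [if_neg p1, if_neg p2]
          split_ifs <;> norm_num
    calc ∑ e ∈ vs P.length, rr (U (i :: P) (false :: e)) v +
          ∑ e ∈ vs P.length, rr (U (i :: P) (true :: e)) v
        ≤ ∑ e ∈ vs P.length, rr (U P e) v +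
          ∑ e ∈ vs P.length, (rr (U P e) (W (iw i) v) + rr (iw i) v) := by
          simp only [h1, h2]
          exact add_le_add le_rfl (sum_le_sum fun e _ => h3 e)
      _ ≤ 2 ^ P.length * eh (P.map iw) v + (2 ^ P.length * eh (P.map iw) (W (iw i) v) +
            2 ^ P.length * rr (iw i) v) := by
          rw [sum_add_distrib, sum_const, card_vs]
          refine add_le_add (ih v) (add_le_add (ih _) ?_)
          rw [nsmul_eq_mul]; push_cast; exact le_rfl
      _ ≤ 2 ^ (P.length + 1) * eh ((i :: P).map iw) v := by
          have hr : 0 ≤ rr (iw i) v := by unfold rr; split_ifs <;> norm_num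
          have hp : (0 : ℝ) ≤ 2 ^ P.length * rr (iw i) v := by positivity
          simp only [List.map_cons, eh]
          rw [pow_succ]
          nlinarith [hp]

theorem stmt_CNT1 : Stmt_CNT1 := by
  intro D P
  induction P with
  | nil => simp [er, Err, vs_zero]
  | cons i P ih =>
    rw [List.length_cons, sum_vs_succ]
    cases i with
    | some j =>
      have h1 : ∀ (x : Bool) e, er D (some j :: P) (x :: e) = er D P e := by
        intro x e; cases x <;> simp [er]
      simp only [h1]
      rw [sum_add_distrib, Err, pow_succ]
      linarith [ih]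
    | none =>
      have h1 : ∀ (x : Bool) e, ((er D (none :: P) (x :: e)).count true : ℝ) =
          rr (U P e) (oo D) + ((er D P e).count true : ℝ) := by
        intro x e
        simp only [er, rr]
        by_cases h : ph .b (U P e) (oo D) = 0
        · simp [h]
        · simp [h]; ring
      simp only [h1]
      rw [sum_add_distrib, sum_add_distrib, Err, pow_succ]
      linarith [ih, sum_rr P (oo D)]

theorem c_oo (D : ℕ) : act .c (oo D) = oo D ∧ act .b (oo D) = oo D ∧ act .d (oo D) = oo D := by
  induction D with
  | zero => simp [oo]
  | succ D ih =>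
    simp only [oo, List.replicate_succ] at *
    simp [act, ih.1, ih.2.1, ih.2.2]

theorem stmt_INJ (hW : Stmt_PHW) : Stmt_INJ := by
  intro D P
  induction P with
  | nil =>
    intro e e' h1 h2 _ _ _
    simp only [List.length_nil, List.length_eq_zero_iff] at h1 h2
    rw [h1, h2]
  | cons i P ih =>
    intro e e' h1 h2 h3 h4 h5
    cases e with
    | nil => simp at h1
    | cons x e =>
    cases e' with
    | nil => simp at h2
    | cons x' e' =>
    simp only [List.length_cons, Nat.add_right_cancel_iff] at h1 h2
    cases i with
    | some j =>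
      simp only [ns, List.cons.injEq] at h5
      obtain ⟨rfl, h5⟩ := h5
      simp only [er] at h4
      have h6 : W (U P e) = W (U P e') := by
        simp only [U, W_append] at h3
        exact mul_right_cancel h3
      rw [ih e e' h1 h2 h6 h4 h5]
    | none =>
      simp only [ns] at h5
      simp only [er, List.cons.injEq, decide_eq_decide, ne_eq, not_iff_not] at h4
      have hc : ∀ (z : Bool) (w : List L), ph .b (w ++ if z then iw none else []) (oo D) =
          ph .b w (oo D) + if z then 1 else 0 := by
        intro z w
        cases z
        · simp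
        · simp only [if_true, iw, ph_append, W_cons, W_nil, mul_one, gen_apply, (c_oo D).1]
          congr 1
          simp [ph, chi, oo]
      have e1 := hW .b (by decide) _ _ h3 (oo D)
      rw [U, U, hc, hc] at e1
      have h2' : ∀ z : ZMod 2, z = 0 ∨ z = 1 := by decide
      have hx : x = x' := by
        rcases h2' (ph .b (U P e) (oo D)) with a | a <;>
        rcases h2' (ph .b (U P e') (oo D)) with b | b
        · rw [a, b] at e1; revert e1; cases x <;> cases x' <;> simp
        · exact absurd (h4.1.1 a) (by rw [b]; decide)
        · exact absurd (h4.1.2 b) (by rw [a]; decide)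
        · rw [a, b] at e1; revert e1; cases x <;> cases x' <;> decide
      subst hx
      have h6 : W (U P e) = W (U P e') := by
        simp only [U, W_append] at h3
        exact mul_right_cancel h3
      rw [ih e e' h1 h2 h6 h4.2 h5]

end GrigGrowth.helper48
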